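import Mathlib
import Pool.Agent.Lib_helper59.Bound

namespace Pool.Agent.Results.MP_5ea113_co.NeverTight

open Equiv Pool.Agent.Lib_helper59.Hyper Pool.Agent.Lib_helper59.OnePlane

/-! ### Definitions -/

/-- The lexicographic product `G ∘ 2K₁`: every vertex of `G` is replaced by two nonadjacent copies
and every edge by a `K_{2,2}`. -/
def twoCopies {V : Type*} (G : SimpleGraph V) : SimpleGraph (V × Fin 2) where
  Adj p q := G.Adj p.1 q.1
  symm := ⟨fun _ _ h => h.symm⟩
  loopless := ⟨fun p h => G.loopless.irrefl p.1 h⟩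

/-- The reversal `(a, b) ↦ (b, a)` of darts (oriented edges). -/
def rev {W : Type*} (P : SimpleGraph W) : Perm P.Dart :=
  SimpleGraph.Dart.symm_involutive.toPerm _

/-- A planar rotation system of the graph `P`: a permutation `ρ` of the darts of `P` that cyclically
permutes, for each vertex `v`, the darts leaving `v`, and for which Euler's formula
`V + F = E + 2C` holds. Here `V` is the number of vertices that are not isolated, `E` the number of
edges, `C` the number of connected components that have an edge, and `F` the number of faces, the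
faces being the cycles of the permutation `d ↦ ρ (rev d)`. -/
structure IsPlaneRotation {W : Type*} (P : SimpleGraph W) (ρ : Perm P.Dart) : Prop where
  rot : ∀ d d' : P.Dart, ρ.SameCycle d d' ↔ d.fst = d'.fst
  euler : Nat.card P.support + Nat.card (Quotient (Perm.SameCycle.setoid (ρ * rev P))) =
    Nat.card P.edgeSet + 2 * Nat.card {c : P.ConnectedComponent // ∃ v ∈ P.support,
      P.connectedComponentMk v = c}

/-- `X` is a possible set of crossings of a drawing of `H` with at most one crossing per edge: a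
crossing is an unordered pair of two different edges of `H` that have no vertex in common, and every
edge belongs to at most one crossing. -/
structure IsCrossingSet {V : Type*} (H : SimpleGraph V) (X : Set (Sym2 (Sym2 V))) : Prop where
  edge : ∀ x ∈ X, ∀ e ∈ x, e ∈ H.edgeSet
  nondiag : ∀ x ∈ X, ¬ x.IsDiag
  disjoint : ∀ x ∈ X, ∀ e ∈ x, ∀ e' ∈ x, ∀ v, v ∈ e → v ∈ e' → e = e'
  once : ∀ x ∈ X, ∀ y ∈ X, ∀ e, e ∈ x → e ∈ y → x = y

/-- The planarization: every crossing `x = {ab, cd}` becomes a new vertex joined to `a, b, c, d`,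
and the two edges `ab, cd` are removed. -/
def planarization {V : Type*} (H : SimpleGraph V) (X : Set (Sym2 (Sym2 V))) :
    SimpleGraph (V ⊕ X) where
  Adj p q := (∃ a b, p = Sum.inl a ∧ q = Sum.inl b ∧ H.Adj a b ∧ ∀ x ∈ X, s(a, b) ∉ x) ∨
    (∃ (a : V) (x : X), (∃ e ∈ x.1, a ∈ e) ∧
      ((p = Sum.inl a ∧ q = Sum.inr x) ∨ (p = Sum.inr x ∧ q = Sum.inl a)))
  symm := ⟨by
    rintro p q (⟨a, b, hp, hq, h1, h2⟩ | ⟨a, x, h, h1⟩)
    · refine Or.inl ⟨b, a, hq, hp, h1.symm, fun x hx => ?_⟩
      rw [Sym2.eq_swap]; exact h2 x hx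
    · exact Or.inr ⟨a, x, h, h1.symm.imp (fun h => h.symm) (fun h => h.symm)⟩⟩
  loopless := ⟨by
    rintro p (⟨a, b, hp, hq, h1, _⟩ | ⟨a, x, _, ⟨hp, hq⟩ | ⟨hp, hq⟩⟩)
    · rw [hp, Sum.inl.injEq] at hq
      rw [hq] at h1
      exact H.loopless.irrefl b h1
    · rw [hp] at hq; exact Sum.inl_ne_inr hq
    · rw [hp] at hq; exact Sum.inr_ne_inl hq⟩

/-- `H` is 1-planar: it has a set `X` of crossings such that the planarization has a planar rotation
system in which at every crossing `{ab, cd}` the four darts towards `a, c, b, d` alternate, that is,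
the rotation applied twice maps the dart towards `a` to the dart towards `b`. -/
def IsOnePlanar {V : Type*} (H : SimpleGraph V) : Prop :=
  ∃ X : Set (Sym2 (Sym2 V)), IsCrossingSet H X ∧
    ∃ ρ : Perm (planarization H X).Dart, IsPlaneRotation (planarization H X) ρ ∧
      ∀ (x : X) (a b : V) (d d' : (planarization H X).Dart), d.toProd = (Sum.inr x, Sum.inl a) →
        d'.toProd = (Sum.inr x, Sum.inl b) → s(a, b) ∈ x.1 → ρ (ρ d) = d'

/-! ### Euler's formula in terms of permutations -/

section euler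

variable {W : Type*} {P : SimpleGraph W} {ρ : Perm P.Dart}

theorem card_of_ker {D E : Type*} (s : Setoid D) (f : D → E) (S : Set E)
    (hs : ∀ d d', s d d' ↔ f d = f d') (hS : ∀ e, e ∈ S ↔ ∃ d, f d = e) :
    Nat.card (Quotient s) = Nat.card S := by
  let g : Quotient s → S := fun q => Quotient.lift (s := s) (fun d => (⟨f d, (hS _).mpr ⟨d, rfl⟩⟩ : S))
    (fun a b h => Subtype.ext ((hs a b).mp h)) q
  have hg : ∀ d, g (Quotient.mk s d) = ⟨f d, (hS _).mpr ⟨d, rfl⟩⟩ := fun d => rfl
  refine Nat.card_congr (Equiv.ofBijective g ⟨?_, ?_⟩)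
  · intro q q' h
    induction q using Quotient.inductionOn with | _ d =>
    induction q' using Quotient.inductionOn with | _ d' =>
    rw [hg, hg, Subtype.mk.injEq] at h
    exact Quotient.sound ((hs d d').mpr h)
  · rintro ⟨e, he⟩
    obtain ⟨d, hd⟩ := (hS e).mp he
    exact ⟨Quotient.mk s d, by rw [hg]; exact Subtype.ext hd⟩

theorem euler_of (h : IsPlaneRotation P ρ) [Finite W] : Euler ρ (rev P) := by
  classical
  have : Fintype W := Fintype.ofFinite W
  have e1 : cyc ρ = Nat.card P.support := by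
    refine card_of_ker _ (fun d : P.Dart => d.fst) P.support h.rot ?_
    intro v
    rw [SimpleGraph.mem_support]
    constructor
    · rintro ⟨w, hw⟩; exact ⟨⟨(v, w), hw⟩, rfl⟩
    · rintro ⟨d, rfl⟩; exact ⟨d.snd, d.adj⟩
  have e2 : cyc (rev P) = Nat.card P.edgeSet := by
    refine card_of_ker _ (fun d : P.Dart => d.edge) P.edgeSet ?_ ?_
    · intro d d'
      constructor
      · intro hs
        have hle : Perm.SameCycle.setoid (rev P) ≤ Setoid.ker (fun d : P.Dart => d.edge) := by
          rw [sc_le_iff]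
          intro x
          exact (SimpleGraph.Dart.edge_symm x).symm
        exact hle hs
      · intro hs
        rw [SimpleGraph.dart_edge_eq_iff] at hs
        rcases hs with rfl | rfl
        · exact (Perm.SameCycle.setoid (rev P)).refl _
        · exact (sc_apply (rev P) _).symm
    · intro e
      constructor
      · intro he
        induction e using Sym2.ind with | _ a b =>
        exact ⟨⟨(a, b), he⟩, rfl⟩
      · rintro ⟨d, rfl⟩; exact d.edge_mem
  have e3 : Nat.card P.Dart = 2 * Nat.card P.edgeSet := by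
    rw [Nat.card_eq_fintype_card, SimpleGraph.dart_card_eq_twice_card_edges,
      Nat.card_eq_fintype_card, SimpleGraph.edgeFinset_card]
  have e4 : comps ρ (rev P) = Nat.card {c : P.ConnectedComponent // ∃ v ∈ P.support,
      P.connectedComponentMk v = c} := by
    refine card_of_ker _ (fun d : P.Dart => P.connectedComponentMk d.fst)
      {c : P.ConnectedComponent | ∃ v ∈ P.support, P.connectedComponentMk v = c} ?_ ?_
    · have key : ∀ (u v : W) (p : P.Walk u v) (d d' : P.Dart), d.fst = u → d'.fst = v →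
          (Perm.SameCycle.setoid ρ ⊔ Perm.SameCycle.setoid (rev P)) d d' := by
        intro u v p
        induction p with
        | nil =>
          intro d d' h1 h2
          exact (le_sup_left : Perm.SameCycle.setoid ρ ≤ _) ((h.rot d d').mpr (h1.trans h2.symm))
        | cons hadj p ih =>
          rename_i u' v' w'
          intro d d' h1 h2
          let e : P.Dart := ⟨(u', v'), hadj⟩
          have s1 : (Perm.SameCycle.setoid ρ ⊔ Perm.SameCycle.setoid (rev P)) d e :=
            (le_sup_left : Perm.SameCycle.setoid ρ ≤ _) ((h.rot d e).mpr h1)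
          have s2 : (Perm.SameCycle.setoid ρ ⊔ Perm.SameCycle.setoid (rev P)) e e.symm :=
            (le_sup_right : Perm.SameCycle.setoid (rev P) ≤ _) (sc_apply (rev P) e)
          exact Setoid.trans' _ (Setoid.trans' _ s1 s2) (ih e.symm d' rfl h2)
      intro d d'
      constructor
      · intro hs
        have hle : Perm.SameCycle.setoid ρ ⊔ Perm.SameCycle.setoid (rev P) ≤
            Setoid.ker (fun d : P.Dart => P.connectedComponentMk d.fst) := by
          apply sup_le
          · rw [sc_le_iff]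
            intro x
            have : x.fst = (ρ x).fst := (h.rot x (ρ x)).mp (sc_apply ρ x)
            show P.connectedComponentMk x.fst = P.connectedComponentMk (ρ x).fst
            rw [this]
          · rw [sc_le_iff]
            intro x
            show P.connectedComponentMk x.fst = P.connectedComponentMk x.snd
            rw [SimpleGraph.ConnectedComponent.eq]
            exact x.adj.reachable
        exact hle hs
      · intro hs
        rw [SimpleGraph.ConnectedComponent.eq] at hs
        obtain ⟨p⟩ := hs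
        exact key _ _ p d d' rfl rfl
    · intro c
      constructor
      · rintro ⟨v, ⟨w, hw⟩, rfl⟩
        exact ⟨⟨(v, w), hw⟩, rfl⟩
      · rintro ⟨d, rfl⟩
        exact ⟨d.fst, ⟨d.snd, d.adj⟩, rfl⟩
  have e5 := h.euler
  unfold Euler
  have e6 : cyc (ρ * rev P) = Nat.card (Quotient (Perm.SameCycle.setoid (ρ * rev P))) := rfl
  rw [e1, e2, e3, e4, e6]
  omega

end euler

/-! ### From a drawing to a one-plane hypermap -/

section bridge

variable {V : Type*} {H : SimpleGraph V} {X : Set (Sym2 (Sym2 V))}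

theorem edge_of (hX : IsCrossingSet H X) (x : X) (e : Sym2 V) (he : e ∈ x.1) (a : V) (ha : a ∈ e) :
    ∃ b, e = s(a, b) ∧ H.Adj a b := by
  obtain ⟨b, rfl⟩ := Sym2.mem_iff_exists.mp ha
  exact ⟨b, rfl, hX.edge x.1 x.2 _ he⟩

/-- the half-dart of a dart -/
theorem exists_half (H : SimpleGraph V) (X : Set (Sym2 (Sym2 V))) (d : H.Dart) :
    ∃ p : (planarization H X).Dart, p.fst = Sum.inl d.fst ∧
      ((p.snd = Sum.inl d.snd ∧ ∀ x ∈ X, d.edge ∉ x) ∨
        (∃ x : X, p.snd = Sum.inr x ∧ d.edge ∈ x.1)) := by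
  by_cases h : ∃ x ∈ X, d.edge ∈ x
  · obtain ⟨x, hx, hd⟩ := h
    refine ⟨⟨(Sum.inl d.fst, Sum.inr ⟨x, hx⟩), ?_⟩, rfl, Or.inr ⟨⟨x, hx⟩, rfl, hd⟩⟩
    exact Or.inr ⟨d.fst, ⟨x, hx⟩, ⟨d.edge, hd, Sym2.mem_mk_left _ _⟩, Or.inl ⟨rfl, rfl⟩⟩
  · push Not at h
    refine ⟨⟨(Sum.inl d.fst, Sum.inl d.snd), ?_⟩, rfl, Or.inl ⟨rfl, h⟩⟩
    exact Or.inl ⟨d.fst, d.snd, rfl, rfl, d.adj, h⟩

theorem bridge [Finite V] (h : IsOnePlanar H) : Nonempty (OPM H) := by
  classical
  obtain ⟨X, hX, ρ, hρ, halt⟩ := h
  have : Finite (V ⊕ X) := inferInstance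
  have : Fintype (V ⊕ X) := Fintype.ofFinite _
  have : Fintype V := Fintype.ofFinite _
  choose ι hι1 hι2 using exists_half H X
  have hι : Function.Injective ι := by
    intro d d' hdd
    have h1 : d.fst = d'.fst := by
      have := hι1 d
      rw [hdd, hι1 d', Sum.inl.injEq] at this
      exact this.symm
    rcases hι2 d with ⟨h2, h2'⟩ | ⟨x, h2, h2'⟩ <;> rcases hι2 d' with ⟨h3, h3'⟩ | ⟨x', h3, h3'⟩
    · rw [hdd, h3, Sum.inl.injEq] at h2
      exact SimpleGraph.Dart.ext _ _ (Prod.ext h1 h2.symm)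
    · rw [hdd, h3] at h2
      exact absurd h2 Sum.inr_ne_inl
    · rw [hdd, h3] at h2
      exact absurd h2 Sum.inl_ne_inr
    · rw [hdd, h3, Sum.inr.injEq] at h2
      subst h2
      have h4 : d.edge = d'.edge := hX.disjoint x'.1 x'.2 _ h2' _ h3' d.fst
        (Sym2.mem_mk_left _ _) (by rw [h1]; exact Sym2.mem_mk_left _ _)
      rw [SimpleGraph.dart_edge_eq_iff] at h4
      rcases h4 with h4 | h4
      · exact h4
      · exfalso
        rw [h4] at h1
        exact d'.adj.ne h1.symm
  have hrange : ∀ p : (planarization H X).Dart, ∀ a, p.fst = Sum.inl a →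
      ∃ d : H.Dart, ι d = p ∧ d.fst = a := by
    intro p a hp
    have hadj := p.adj
    rcases hadj with ⟨a', b, h1, h2, h3, h4⟩ | ⟨a', x, ⟨e, he, hae⟩, ⟨h1, h2⟩ | ⟨h1, h2⟩⟩
    · have : a = a' := by rw [hp, Sum.inl.injEq] at h1; exact h1
      subst this
      refine ⟨⟨(a, b), h3⟩, ?_, rfl⟩
      have i1 := hι1 ⟨(a, b), h3⟩
      rcases hι2 ⟨(a, b), h3⟩ with ⟨i2, _⟩ | ⟨x, _, i2⟩
      · exact SimpleGraph.Dart.ext _ _ (Prod.ext (i1.trans h1.symm) (i2.trans h2.symm))
      · exact absurd i2 (h4 x.1 x.2)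
    · have : a = a' := by rw [hp, Sum.inl.injEq] at h1; exact h1
      subst this
      obtain ⟨b, rfl, hab⟩ := edge_of hX x e he a hae
      refine ⟨⟨(a, b), hab⟩, ?_, rfl⟩
      have i1 := hι1 ⟨(a, b), hab⟩
      rcases hι2 ⟨(a, b), hab⟩ with ⟨_, i2⟩ | ⟨x', i2, i3⟩
      · exact absurd he (i2 x.1 x.2)
      · have : x' = x := Subtype.ext (hX.once _ x'.2 _ x.2 _ i3 he)
        subst this
        exact SimpleGraph.Dart.ext _ _ (Prod.ext (i1.trans h1.symm) (i2.trans h2.symm))
    · rw [hp] at h1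
      exact absurd h1 Sum.inl_ne_inr
  have hrange' : ∀ p : (planarization H X).Dart, p ∈ Set.range ι ↔ ∃ a, p.fst = Sum.inl a := by
    intro p
    constructor
    · rintro ⟨d, rfl⟩; exact ⟨_, hι1 d⟩
    · rintro ⟨a, ha⟩
      obtain ⟨d, hd, _⟩ := hrange p a ha
      exact ⟨d, hd⟩
  have hρfst : ∀ p, (ρ p).fst = p.fst := fun p => ((hρ.rot p (ρ p)).mp (sc_apply ρ p)).symm
  have hρfst' : ∀ p, (ρ⁻¹ p).fst = p.fst := by
    intro p
    exact (hρfst (ρ⁻¹ p)).symm.trans
      (congrArg (fun q : (planarization H X).Dart => q.fst) (ρ.apply_symm_apply p))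
  -- the planarization, rotated and restricted
  have hE := (euler_of hρ).rot
  obtain ⟨α, ψ, hE', hα, hψ, hsc⟩ := hE.restrict ι hι
  have hα' : ∀ d, ι (α d) = ρ⁻¹ (ι d) := by
    intro d
    obtain ⟨k, hk0, hk, hkj⟩ := hα d
    have : k = 1 := by
      by_contra hne
      refine hkj 1 Nat.one_pos (by omega) ?_
      rw [pow_one, hrange']
      exact ⟨_, (hρfst' _).trans (hι1 d)⟩
    rw [hk, this, pow_one]
  have hrev : ∀ p : (planarization H X).Dart, rev (planarization H X) p = p.symm := fun _ => rfl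
  -- uncrossed darts
  have hτ1 : ∀ d b, (ι d).snd = Sum.inl b → ι (α (ψ d)) = (ι d).symm := by
    intro d b hb
    obtain ⟨k, hk0, hk, hkj⟩ := hψ d
    have h1 : ((ρ * rev (planarization H X)) (ι d)).fst = (ι d).snd := by
      rw [Perm.mul_apply, hρfst, hrev]; rfl
    have : k = 1 := by
      by_contra hne
      refine hkj 1 Nat.one_pos (by omega) ?_
      rw [pow_one, hrange']
      exact ⟨b, h1.trans hb⟩
    rw [hα', hk, this, pow_one, Perm.mul_apply, hrev]
    exact ρ.symm_apply_apply _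
  -- crossed darts
  have hτ2 : ∀ d (x : X), (ι d).snd = Sum.inr x → ι (α (ψ d)) = (ρ (ι d).symm).symm := by
    intro d x hx
    obtain ⟨k, hk0, hk, hkj⟩ := hψ d
    have h1 : ((ρ * rev (planarization H X)) (ι d)).fst = (ι d).snd := by
      rw [Perm.mul_apply, hρfst, hrev]; rfl
    have hk1 : k ≠ 1 := by
      rintro rfl
      rw [pow_one] at hk
      have h2 := hι1 (ψ d)
      rw [hk, h1, hx] at h2
      exact Sum.inr_ne_inl h2
    have h3 : ∃ c, (ρ (ι d).symm).snd = Sum.inl c := by
      have h4 : (ρ (ι d).symm).fst = Sum.inr x := by rw [hρfst]; exact hx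
      rcases (ρ (ι d).symm).adj with ⟨a', b, h5, _⟩ | ⟨a', x', _, ⟨h5, _⟩ | ⟨_, h6⟩⟩
      · rw [h4] at h5; exact absurd h5 Sum.inr_ne_inl
      · rw [h4] at h5; exact absurd h5 Sum.inr_ne_inl
      · exact ⟨a', h6⟩
    obtain ⟨c, hc⟩ := h3
    have : k = 2 := by
      by_contra hne
      refine hkj 2 (by omega) (by omega) ?_
      rw [pow_two, Perm.mul_apply, hrange']
      refine ⟨c, ?_⟩
      rw [Perm.mul_apply, hρfst, hrev]
      exact hc
    rw [hα', hk, this, pow_two, Perm.mul_apply, Perm.mul_apply, Perm.mul_apply, hrev, hrev]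
    exact ρ.symm_apply_apply _
  have hcr : ∀ d (x : X), (ι d).snd = Sum.inr x → d.edge ∈ x.1 := by
    intro d x hx
    rcases hι2 d with ⟨h1, _⟩ | ⟨x', h1, h2⟩
    · rw [h1] at hx; exact absurd hx Sum.inl_ne_inr
    · rw [h1, Sum.inr.injEq] at hx
      rw [← hx]; exact h2
  have hcr' : ∀ d (x : X), d.edge ∈ x.1 → (ι d).snd = Sum.inr x := by
    intro d x hx
    rcases hι2 d with ⟨_, h2⟩ | ⟨x', h1, h2⟩
    · exact absurd hx (h2 x.1 x.2)
    · rw [h1, Sum.inr.injEq]
      exact Subtype.ext (hX.once _ x'.2 _ x.2 _ h2 hx)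
  refine ⟨⟨α⁻¹, α * ψ, ?_, ?_, hE'.rot⟩⟩
  · intro d d'
    rw [Perm.sameCycle_inv, hsc, Perm.sameCycle_inv, hρ.rot, hι1, hι1, Sum.inl.injEq]
  · intro d
    rw [Perm.mul_apply]
    rcases hι2 d with ⟨h1, h2⟩ | ⟨x, h1, h2⟩
    · left
      apply hι
      rw [hτ1 d _ h1]
      refine SimpleGraph.Dart.ext _ _ (Prod.ext ?_ ?_)
      · exact h1.trans (hι1 d.symm).symm
      · rcases hι2 d.symm with ⟨h3, _⟩ | ⟨x, _, h3⟩
        · exact (hι1 d).trans h3.symm
        · rw [SimpleGraph.Dart.edge_symm] at h3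
          exact absurd h3 (h2 x.1 x.2)
    · right
      rw [Perm.mul_apply]
      set t := α (ψ d) with ht
      have h3 : ι t = (ρ (ι d).symm).symm := hτ2 d x h1
      have h4 : (ι t).snd = Sum.inr x := by
        rw [h3]
        exact (hρfst _).trans h1
      have h5 : t.edge ∈ x.1 := hcr t x h4
      have h6 : ι (α (ψ t)) = (ρ (ρ (ι d).symm)).symm := by
        rw [hτ2 t x h4, h3, SimpleGraph.Dart.symm_symm]
      have h7 : ρ (ρ (ι d).symm) = (ι d.symm).symm := by
        refine halt x d.fst d.snd _ _ (Prod.ext h1 (hι1 d)) (Prod.ext ?_ (hι1 d.symm)) h2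
        exact hcr' d.symm x (by rw [SimpleGraph.Dart.edge_symm]; exact h2)
      have h8 : α (ψ t) = d.symm := by
        apply hι
        rw [h6, h7, SimpleGraph.Dart.symm_symm]
      have h9 : t.edge ≠ d.edge := by
        intro h
        rw [SimpleGraph.dart_edge_eq_iff] at h
        rcases h with h | h
        · rw [h] at h8
          have : d.symm = d := h8.symm.trans (ht.symm.trans h)
          exact OPM.symm_ne d this
        · have h10 : α (ψ t) = α (ψ d) := by rw [h8, ← ht, h]
          have h11 : t = d := ψ.injective (α.injective h10)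
          rw [h11] at h
          exact OPM.symm_ne d h.symm
      have hd : ∀ v, v ∈ t.edge → v ∉ d.edge := fun v hv hv' =>
        h9 (hX.disjoint x.1 x.2 _ h5 _ h2 v hv hv')
      have m1 : d.fst ∈ d.edge := Sym2.mem_mk_left _ _
      have m2 : d.snd ∈ d.edge := Sym2.mem_mk_right _ _
      have n1 : t.fst ∈ t.edge := Sym2.mem_mk_left _ _
      have n2 : t.snd ∈ t.edge := Sym2.mem_mk_right _ _
      exact ⟨h8, fun h => hd _ n1 (by rw [h]; exact m1), fun h => hd _ n1 (by rw [h]; exact m2),
        fun h => hd _ n2 (by rw [h]; exact m1), fun h => hd _ n2 (by rw [h]; exact m2)⟩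

end bridge

/-- **The bound `2n - 3` is attained for no `n ≥ 5`.** If `n ≥ 5` and `G` is a graph on `n` vertices
whose product with `2K₁` is 1-planar, then `G` has at most `2n - 4` edges, and it also has at most
`7(n - 1)/4` edges. -/
theorem result (n : ℕ) (hn : 5 ≤ n) (G : SimpleGraph (Fin n)) (h : IsOnePlanar (twoCopies G)) :
    Nat.card G.edgeSet ≤ 2 * n - 4 ∧ 4 * Nat.card G.edgeSet ≤ 7 * (n - 1) := by
  classical
  obtain ⟨M⟩ := bridge h
  have e : Nat.card G.edgeSet = G.edgeFinset.card := by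
    rw [Nat.card_eq_fintype_card, SimpleGraph.edgeFinset_card]
  obtain ⟨_, h2, h3⟩ := main_bound n (Fin n) G (Fintype.card_fin n) (by omega) M
  rw [e]
  exact ⟨h3 hn, h2 (by omega)⟩

end Pool.Agent.Results.MP_5ea113_co.NeverTight
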